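import Mathlib
import Pool.Agent.Q285.BregCol

/-!
# Coefficients of products of sums of distinct variables

Every coefficient of a product of `n` sums of `k` distinct variables is at most the balanced
`k`-multinomial coefficient.  The number of choice functions with prescribed fibre sizes is bounded by
a Brègman–Minc type estimate in terms of the numbers `d j` of factors containing the `j`-th variable
(`Pool.Agent.Q285.BregCol.bregman`); a pointwise inequality
(`Pool.Agent.Q285.LogFact.key`), which is linear in `d j` and the exponent, then gives the bound.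
-/

namespace Pool.Agent.Results.MP_3eac50_co.BalancedBound

open Finset Pool.Agent.Q285.LogFact Pool.Agent.Q285.BregCol

lemma U_nonneg (q : ℕ) : 0 ≤ U q := by
  induction q with
  | zero => rw [U_zero]
  | succ q ih =>
    rw [U_succ]
    have := mul_nonneg (by positivity : (0 : ℝ) ≤ (q : ℝ) + 1) (log_step_nonneg q)
    linarith

lemma sum_deg {κ : Type*} [Fintype κ] [DecidableEq κ] {n k : ℕ} (A : Fin n → Finset κ)
    (hA : ∀ i, (A i).card = k) : ∑ j, deg A j = n * k := by
  unfold deg
  simp_rw [Finset.card_filter]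
  rw [Finset.sum_comm]
  have : ∀ i : Fin n, (∑ j, if j ∈ A i then 1 else 0) = k := by
    intro i
    rw [← Finset.card_filter]
    simpa using hA i
  rw [Finset.sum_congr rfl (fun i _ => this i)]
  simp

lemma deg_le {κ : Type*} [Fintype κ] [DecidableEq κ] {n : ℕ} (A : Fin n → Finset κ) (j : κ) :
    deg A j ≤ n := by
  unfold deg
  refine (Finset.card_le_univ _).trans ?_
  simp

lemma count_le {κ : Type*} [Fintype κ] [DecidableEq κ] {n k : ℕ} (hk : 1 ≤ k)
    (A : Fin n → Finset κ) (hA : ∀ i, (A i).card = k) (α : κ → ℕ) :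
    (Fam A α).card * ((n / k + 1).factorial ^ (n % k) * (n / k).factorial ^ (k - n % k))
      ≤ n.factorial := by
  rcases Finset.eq_empty_or_nonempty (Fam A α) with he | hne
  · rw [he]; simp
  rcases Nat.eq_zero_or_pos n with hn | hn
  · subst hn
    have : (Fam A α).card ≤ 1 := (Finset.card_le_univ _).trans (by simp)
    simpa using this
  set q := n / k with hq
  set s := n % k with hs
  have hsk : s < k := Nat.mod_lt _ (by omega)
  have hnqs : k * q + s = n := Nat.div_add_mod n k
  have hn0 : (0 : ℝ) < n := by exact_mod_cast hn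
  obtain ⟨f, hf⟩ := hne
  have hN : 0 < (Fam A α).card := Finset.card_pos.2 ⟨f, hf⟩
  have hb := bregman n A α ⟨f, hf⟩
  have hlogP : Real.log ((Fam A α).card * ∏ j, (α j).factorial : ℕ)
      = Real.log (Fam A α).card + ∑ j, sl (α j) := by
    push_cast
    rw [Real.log_mul (by exact_mod_cast hN.ne')
      (Finset.prod_ne_zero_iff.2 fun j _ => by exact_mod_cast (Nat.factorial_pos _).ne'),
      Real.log_prod (fun j _ => by exact_mod_cast (Nat.factorial_pos _).ne')]
    rfl
  rw [hlogP] at hb
  have hpt : ∀ j, (α j : ℝ) * G (deg A j) - sl (α j)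
      ≤ ((deg A j : ℝ) / n) * U q + α j * (G n - Real.log (q + 1)) := by
    intro j
    rcases Nat.eq_zero_or_pos (α j) with h0 | hpos
    · rw [h0, sl_zero]
      have := U_nonneg q
      have h2 : 0 ≤ ((deg A j : ℝ) / n) * U q := by positivity
      simp only [Nat.cast_zero, zero_mul, sub_zero, add_zero]
      exact h2
    · exact key q hpos (alpha_le_deg hf j) (deg_le A j)
  have hsum := Finset.sum_le_sum (fun j (_ : j ∈ (Finset.univ : Finset κ)) => hpt j)
  rw [Finset.sum_sub_distrib, Finset.sum_add_distrib, ← Finset.sum_mul, ← Finset.sum_mul,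
    ← Finset.sum_div] at hsum
  have h1 : (∑ j, (deg A j : ℝ)) = n * k := by
    rw [← Nat.cast_sum, sum_deg A hA]; push_cast; ring
  have h2 : (∑ j, (α j : ℝ)) = n := by
    rw [← Nat.cast_sum, sum_alpha hf]
  rw [h1, h2] at hsum
  have h3 : (n : ℝ) * k / n = k := by field_simp
  rw [h3] at hsum
  have h4 : (n : ℝ) * G n = sl n := mul_G n
  have hnr : (n : ℝ) = k * q + s := by exact_mod_cast hnqs.symm
  have h5 : Real.log (Fam A α).card + (k * sl q + s * Real.log (q + 1)) ≤ sl n := by
    have : (k : ℝ) * U q = k * q * Real.log (q + 1) - k * sl q := by unfold U; ring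
    have e : (n : ℝ) * (G n - Real.log (q + 1)) = sl n - (k * q + s) * Real.log (q + 1) := by
      rw [mul_sub, h4, ← hnr]
    rw [this, e] at hsum
    linarith
  have hD : Real.log ((((q + 1).factorial ^ s * q.factorial ^ (k - s) : ℕ)) : ℝ)
      = k * sl q + s * Real.log (q + 1) := by
    push_cast
    rw [Real.log_mul (by positivity) (by positivity), Real.log_pow, Real.log_pow]
    have e1 : Real.log ((q + 1).factorial : ℝ) = sl (q + 1) := rfl
    have e2 : Real.log (q.factorial : ℝ) = sl q := rfl
    rw [e1, e2, sl_succ, Nat.cast_sub hsk.le]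
    ring
  have hDpos : 0 < (q + 1).factorial ^ s * q.factorial ^ (k - s) := by positivity
  have h6 : Real.log (((Fam A α).card * ((q + 1).factorial ^ s * q.factorial ^ (k - s)) : ℕ) : ℝ)
      ≤ Real.log (n.factorial : ℝ) := by
    rw [Nat.cast_mul, Real.log_mul (by exact_mod_cast hN.ne') (by exact_mod_cast hDpos.ne'), hD]
    exact h5
  have h7 := (Real.log_le_log_iff (by exact_mod_cast Nat.mul_pos hN hDpos)
    (by exact_mod_cast Nat.factorial_pos n)).1 h6
  exact_mod_cast h7

/-- the coefficients of the product count choice functions -/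
lemma coeff_le {n k r : ℕ} (x : Fin n → Fin k → Fin r) (hx : ∀ i, Function.Injective (x i))
    (α : Fin r →₀ ℕ) :
    MvPolynomial.coeff α (∏ i, ∑ j, (MvPolynomial.X (x i j) : MvPolynomial (Fin r) ℕ))
      ≤ (Fam (fun i => Finset.univ.image (x i)) (fun j => α j)).card := by
  classical
  rw [Finset.prod_univ_sum, MvPolynomial.coeff_sum]
  have h1 : ∀ g : Fin n → Fin k, MvPolynomial.coeff α
      (∏ i, (MvPolynomial.X (x i (g i)) : MvPolynomial (Fin r) ℕ))
      = if (∑ i, Finsupp.single (x i (g i)) 1) = α then 1 else 0 := by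
    intro g
    have : (∏ i, (MvPolynomial.X (x i (g i)) : MvPolynomial (Fin r) ℕ))
        = MvPolynomial.monomial (∑ i, Finsupp.single (x i (g i)) 1) 1 := by
      rw [MvPolynomial.monomial_sum_one]
      rfl
    rw [this, MvPolynomial.coeff_monomial]
  rw [Finset.sum_congr rfl (fun g _ => h1 g), ← Finset.card_filter]
  refine Finset.card_le_card_of_injOn (fun g i => x i (g i)) ?_ ?_
  · intro g hg
    have hg' : (∑ i, Finsupp.single (x i (g i)) 1) = α := (Finset.mem_filter.1 hg).2
    refine Finset.mem_coe.2 (mem_Fam.2 ⟨fun i => ?_, fun j => ?_⟩)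
    · exact Finset.mem_image.2 ⟨g i, Finset.mem_univ _, rfl⟩
    · rw [← hg', Finsupp.finset_sum_apply, Finset.card_filter]
      refine Finset.sum_congr rfl fun i _ => ?_
      rw [Finsupp.single_apply]
  · intro g _ g' _ h
    funext i
    exact hx i (congrFun h i)

/-- **The balanced multinomial bound.**  Let `k ≥ 1`, `n` and `r` be natural numbers, and let
`x i 1, …, x i k` be distinct elements of the set of variables for every `i = 1, …, n`.  Every
coefficient of `∏ i, (x i 1 + ⋯ + x i k)` is at most the balanced `k`-multinomial coefficient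
`n! / ((q+1)!^s * (q!)^(k-s))`, `n = q k + s`, `0 ≤ s < k`. -/
theorem result (k n r : ℕ) (hk : 1 ≤ k) (x : Fin n → Fin k → Fin r)
    (hx : ∀ i, Function.Injective (x i)) (α : Fin r →₀ ℕ) :
    ((MvPolynomial.coeff α
        (∏ i, ∑ j, (MvPolynomial.X (x i j) : MvPolynomial (Fin r) ℕ)) : ℕ) : ℚ)
      ≤ (n.factorial : ℚ)
          / (((n / k + 1).factorial : ℚ) ^ (n % k) * ((n / k).factorial : ℚ) ^ (k - n % k)) := by
  have h1 := coeff_le x hx α
  have h2 := count_le hk (fun i => Finset.univ.image (x i))
    (fun i => by rw [Finset.card_image_of_injective _ (hx i)]; simp) (fun j => α j)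
  have hD : (0 : ℚ) < ((n / k + 1).factorial : ℚ) ^ (n % k) * ((n / k).factorial : ℚ) ^ (k - n % k) := by
    positivity
  rw [le_div_iff₀ hD]
  have h3 : MvPolynomial.coeff α
        (∏ i, ∑ j, (MvPolynomial.X (x i j) : MvPolynomial (Fin r) ℕ))
        * ((n / k + 1).factorial ^ (n % k) * (n / k).factorial ^ (k - n % k)) ≤ n.factorial :=
    (Nat.mul_le_mul_right _ h1).trans h2
  exact_mod_cast h3

end Pool.Agent.Results.MP_3eac50_co.BalancedBound
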